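import Mathlib
import Pool.Agent.T2H74.DiscD

/-!
# Extremal conformal harmonic discs in strongly convex domains are not unique

In every dimension `n ≥ 3` there is a bounded strongly convex domain with real-analytic boundary in
`ℝⁿ`, a point and a conformal frame for which no extremal conformal harmonic disc is unique.
-/

set_option autoImplicit false

open Metric Set
open scoped ContDiff

namespace Pool.Agent.Results.MP_a50f86_an.StronglyConvexFails

variable {n : ℕ}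

/-- `f` is a conformal harmonic map from the unit disc into `Ω` (only the values of `f` on the unit
disc matter): it is of class `C²`, it maps the disc into `Ω`, `|f_x| = |f_y|`, `f_x ⬝ f_y = 0` and
`f_xx + f_yy = 0` on the disc. -/
structure ConformalHarmonicDisc (Ω : Set (EuclideanSpace ℝ (Fin n)))
    (f : ℂ → EuclideanSpace ℝ (Fin n)) : Prop where
  contDiffOn : ContDiffOn ℝ 2 f (ball (0 : ℂ) 1)
  mapsTo : ∀ z ∈ ball (0 : ℂ) 1, f z ∈ Ω
  conformal : ∀ z ∈ ball (0 : ℂ) 1,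
    ‖fderiv ℝ f z (1 : ℂ)‖ = ‖fderiv ℝ f z Complex.I‖ ∧
    inner ℝ (fderiv ℝ f z (1 : ℂ)) (fderiv ℝ f z Complex.I) = 0
  harmonic : ∀ z ∈ ball (0 : ℂ) 1,
    fderiv ℝ (fun w => fderiv ℝ f w (1 : ℂ)) z (1 : ℂ) +
      fderiv ℝ (fun w => fderiv ℝ f w Complex.I) z Complex.I = 0

/-- `f` is an extremal disc for `Ω`, the point `p` and the frame `(u, v)`: `f(0) = p`,
`f_x(0) = r u`, `f_y(0) = r v` with `r > 0` as large as possible. -/
def ExtremalDisc (Ω : Set (EuclideanSpace ℝ (Fin n))) (p u v : EuclideanSpace ℝ (Fin n))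
    (f : ℂ → EuclideanSpace ℝ (Fin n)) : Prop :=
  ∃ r : ℝ, 0 < r ∧ ConformalHarmonicDisc Ω f ∧ f 0 = p ∧ fderiv ℝ f 0 (1 : ℂ) = r • u ∧
    fderiv ℝ f 0 Complex.I = r • v ∧
    ∀ (g : ℂ → EuclideanSpace ℝ (Fin n)) (s : ℝ), 0 < s → ConformalHarmonicDisc Ω g → g 0 = p →
      fderiv ℝ g 0 (1 : ℂ) = s • u → fderiv ℝ g 0 Complex.I = s • v → s ≤ r

theorem disc_iff {Ω : Set (EuclideanSpace ℝ (Fin n))} {f : ℂ → EuclideanSpace ℝ (Fin n)} :
    ConformalHarmonicDisc Ω f ↔ Pool.Agent.T2H74.Disc.IsCH Ω f :=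
  ⟨fun h => ⟨h.1, h.2, h.3, h.4⟩, fun h => ⟨h.1, h.2.1, h.2.2.1, h.2.2.2⟩⟩

theorem extremal_iff {Ω : Set (EuclideanSpace ℝ (Fin n))} {p u v : EuclideanSpace ℝ (Fin n)}
    {f : ℂ → EuclideanSpace ℝ (Fin n)} :
    ExtremalDisc Ω p u v f ↔ Pool.Agent.T2H74.Disc.IsExtremal Ω p u v f := by
  unfold ExtremalDisc Pool.Agent.T2H74.Disc.IsExtremal
  simp only [disc_iff]

/-- For every `n ≥ 3` there is a real-analytic strongly convex function `ρ` on `ℝⁿ` such that
`Ω = {ρ < 0}` is bounded, contains `0`, and `dρ ≠ 0` on its boundary, and there is a nonzero conformal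
frame `(u, v)` such that for every extremal disc `f` for `(0, (u, v))` in `Ω` there is a different
extremal disc, and `f` is not contained in the plane spanned by `u` and `v`. -/
theorem result (n : ℕ) (hn : 3 ≤ n) :
    ∃ ρ : EuclideanSpace ℝ (Fin n) → ℝ,
      ContDiff ℝ ω ρ ∧ (∃ μ : ℝ, 0 < μ ∧ StrongConvexOn univ μ ρ) ∧
      Bornology.IsBounded {x | ρ x < 0} ∧ ρ 0 < 0 ∧
      (∀ x ∈ frontier {x | ρ x < 0}, fderiv ℝ ρ x ≠ 0) ∧
      ∃ u v : EuclideanSpace ℝ (Fin n), ‖u‖ = ‖v‖ ∧ inner ℝ u v = 0 ∧ u ≠ 0 ∧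
        ∀ f, ExtremalDisc {x | ρ x < 0} 0 u v f →
          (∃ h, ExtremalDisc {x | ρ x < 0} 0 u v h ∧ ¬ EqOn h f (ball (0 : ℂ) 1)) ∧
          ∃ z ∈ ball (0 : ℂ) 1, f z ∉ Submodule.span ℝ {u, v} := by
  obtain ⟨m, rfl⟩ := Nat.exists_eq_add_of_le' hn
  refine ⟨Pool.Agent.T2H74.Disc.rho, Pool.Agent.T2H74.Disc.contDiff_rho _,
    ⟨1 / 10, by norm_num, Pool.Agent.T2H74.Disc.strongConvexOn_rho⟩,
    Pool.Agent.T2H74.Disc.isBounded_Dom, Pool.Agent.T2H74.Disc.zero_mem_Dom,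
    fun x hx => Pool.Agent.T2H74.Disc.fderiv_rho_ne hx,
    EuclideanSpace.single 0 1, EuclideanSpace.single 1 1, by simp,
    by rw [EuclideanSpace.inner_single_left]; simp, by simp, ?_⟩
  intro f hf
  have hf' := extremal_iff.1 hf
  constructor
  · by_contra hcon
    push Not at hcon
    exact Pool.Agent.T2H74.Disc.not_unique hf' fun h hh => hcon h (extremal_iff.2 hh)
  · by_contra hcon
    push Not at hcon
    apply Pool.Agent.T2H74.Disc.extremal_not_planar hf'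
    intro z hz j hj0 hj1
    obtain ⟨a, b, hab⟩ := Submodule.mem_span_pair.1 (hcon z hz)
    have h := congrArg (fun x : EuclideanSpace ℝ (Fin (m + 3)) => x j) hab
    simp only [PiLp.add_apply, PiLp.smul_apply, PiLp.single_apply, if_neg hj0,
      if_neg hj1, smul_zero, add_zero] at h
    exact h.symm

end Pool.Agent.Results.MP_a50f86_an.StronglyConvexFails
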